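import Pool.Agent.H159Z.NI.Main
import Pool.Agent.H159Z.NI.Rank

namespace Pool.Agent.Results.MP_95d40a_an.ARealBelowMp

open MeasureTheory Pool.Agent.H159Z.NI
open scoped ENNReal

universe u

/-- For every `1 < p < ∞`, `p ≠ 2`, and every measure with `dim L_p(μ) ≥ 3`, the numerical index
of the real space `L_p(μ)` is strictly smaller than `M_p`. -/
theorem result {Ω : Type u} [MeasurableSpace Ω] (μ : Measure Ω) (p : ℝ≥0∞) [Fact (1 ≤ p)]
    (hp1 : 1 < p) (hp : p ≠ ∞) (hp2 : p ≠ 2) (hdim : 3 ≤ Module.rank ℝ (Lp ℝ p μ)) :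
    numIndex ℝ (Lp ℝ p μ) < Mp p.toReal := by
  have hP : 1 < p.toReal := by
    have := (ENNReal.toReal_lt_toReal ENNReal.one_ne_top hp).2 hp1
    simpa using this
  have hP2 : p.toReal ≠ 2 := by
    intro h
    apply hp2
    rw [← ENNReal.ofReal_toReal hp, h]
    simp
  obtain ⟨A, B, Y, h1, h2, h3, h4, h5, h6, h7, h8, h9, h10, h11, h12⟩ := three_sets hp hdim
  exact real_index_lt hp hP hP2 h1 h2 h3 h4 h5 h6 h7 h8 h9 h10 h11 h12

end Pool.Agent.Results.MP_95d40a_an.ARealBelowMp
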