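import Pool.Agent.H159Z.NI.Meas
import Pool.Agent.H549Z.R1.Final

namespace Pool.Agent.Results.MP_95d40a_an.BComplexBelowKappa

open MeasureTheory Pool.Agent.H159Z.NI
open scoped ENNReal

universe u

/-- For every `1 < p < ∞`, `p ≠ 2`, and every measure with `dim L_p(μ) ≥ 2`, the numerical index
of the complex space `L_p(μ)` is strictly smaller than `κ_p = 1 / (p ^ (1/p) q ^ (1/q))`,
where `q = p / (p - 1)`. -/
theorem result {Ω : Type u} [MeasurableSpace Ω] (μ : Measure Ω) (p : ℝ≥0∞) [Fact (1 ≤ p)]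
    (hp1 : 1 < p) (hp : p ≠ ∞) (hp2 : p ≠ 2) (hdim : 2 ≤ Module.rank ℂ (Lp ℂ p μ))
    (q : ℝ) (hq : q = p.toReal / (p.toReal - 1)) :
    numIndex ℂ (Lp ℂ p μ) < 1 / (p.toReal ^ (1 / p.toReal) * q ^ (1 / q)) := by
  have hP : 1 < p.toReal := by
    have := (ENNReal.toReal_lt_toReal ENNReal.one_ne_top hp).2 hp1
    simpa using this
  have hP2 : p.toReal ≠ 2 := by
    intro h
    apply hp2
    rw [← ENNReal.ofReal_toReal hp, h]
    simp
  have hPQ : p.toReal.HolderConjugate q := (Real.holderConjugate_iff_eq_conjExponent hP).2 hq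
  obtain ⟨φ, y, c, hc, hrad, hlt⟩ := Pool.Agent.H549Z.R1.exists_op (𝕜 := ℂ) (μ := μ) hp q hPQ hP2
    (lt_of_lt_of_le (by norm_num) hdim)
  have hK0 : 0 < p.toReal ^ (1 / p.toReal) * q ^ (1 / q) := by
    have h1 : 0 < p.toReal := by linarith
    have h2 := hPQ.symm.pos
    positivity
  have hN : 0 < ‖φ‖ * ‖y‖ := lt_trans (mul_pos hc hK0) hlt
  have hT : ‖φ.smulRight y‖ = ‖φ‖ * ‖y‖ := ContinuousLinearMap.norm_smulRight_apply _ _
  refine (numIndex_le (φ.smulRight y) c hc.le (by rwa [hT]) fun x f hx hf hfx => ?_).trans_lt ?_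
  · rw [ContinuousLinearMap.smulRight_apply, map_smul, norm_smul]
    exact hrad x f hx hf hfx
  · rw [hT, div_lt_div_iff₀ hN hK0, one_mul]
    exact hlt

end Pool.Agent.Results.MP_95d40a_an.BComplexBelowKappa
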